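import Pool.Agent.H370R2.DirGood
import Pool.Agent.H370R2.Local

/-! Zeros of zeta in a window. -/

set_option autoImplicit false

namespace Pool.Agent.Y21.FW

open Complex Filter Topology Set MeasureTheory

/-- the nontrivial zeros with ordinate in `(T, T+H]` -/
def zeros (T H : ℝ) : Set ℂ :=
  {s : ℂ | riemannZeta s = 0 ∧ 0 < s.re ∧ s.re < 1 ∧ T < s.im ∧ s.im ≤ T + H}

theorem ne_one {s : ℂ} (hs : s.im ≠ 0) : s ≠ 1 := H370.DL.ne_one_of_im hs

theorem zeta_an {s : ℂ} (hs : s ≠ 1) : AnalyticAt ℂ riemannZeta s := by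
  have h := H370.DL.analyticAt_L (χ := (1 : DirichletCharacter ℂ 1)) hs
  rwa [DirichletCharacter.LFunction_modOne_eq] at h

theorem order_symm {s : ℂ} (hs : s.im ≠ 0) :
    analyticOrderAt riemannZeta (1 - (starRingEnd ℂ) s) = analyticOrderAt riemannZeta s := by
  have h := H370.DL.L_symm (χ := (1 : DirichletCharacter ℂ 1))
    DirichletCharacter.isPrimitive_one_level_one hs
  rwa [DirichletCharacter.LFunction_modOne_eq] at h

theorem mult_symm {s : ℂ} (hs : s.im ≠ 0) :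
    analyticOrderNatAt riemannZeta (1 - (starRingEnd ℂ) s) = analyticOrderNatAt riemannZeta s := by
  unfold analyticOrderNatAt
  rw [order_symm hs]

theorem preconn : IsPreconnected ({1}ᶜ : Set ℂ) :=
  (isConnected_compl_singleton_of_one_lt_rank (by simp) (1 : ℂ)).isPreconnected

theorem zeta_two_ne : riemannZeta 2 ≠ 0 := riemannZeta_ne_zero_of_one_le_re (by norm_num)

theorem mult_pos_iff {s : ℂ} (hs : s ≠ 1) :
    0 < analyticOrderNatAt riemannZeta s ↔ riemannZeta s = 0 :=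
  H370.Loc.mult_pos (f := riemannZeta) (K := {1}ᶜ) preconn (fun z hz => zeta_an hz) (c := 2)
    (by simp) zeta_two_ne hs

theorem zeros_symm {T H : ℝ} (hT : 0 ≤ T) {s : ℂ} (hs : s ∈ zeros T H) :
    1 - (starRingEnd ℂ) s ∈ zeros T H := by
  obtain ⟨h1, h2, h3, h4, h5⟩ := hs
  have him : s.im ≠ 0 := by linarith
  have him' : (1 - (starRingEnd ℂ) s).im = s.im := by simp
  have hre' : (1 - (starRingEnd ℂ) s).re = 1 - s.re := by simp
  refine ⟨?_, by rw [hre']; linarith, by rw [hre']; linarith, by rw [him']; exact h4,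
    by rw [him']; exact h5⟩
  rw [← mult_pos_iff (ne_one (by rw [him']; exact him)), mult_symm him,
    mult_pos_iff (ne_one him)]
  exact h1

theorem zeros_finite (T H : ℝ) : (zeros T H).Finite := by
  by_contra hinf
  have hinf : (zeros T H).Infinite := hinf
  have hcomp : IsCompact (Icc (0 : ℝ) 1 ×ℂ Icc T (T + H)) := isCompact_Icc.reProdIm isCompact_Icc
  have hsub : zeros T H ⊆ Icc (0 : ℝ) 1 ×ℂ Icc T (T + H) := by
    rintro s ⟨-, h1, h2, h3, h4⟩
    exact ⟨⟨h1.le, h2.le⟩, ⟨h3.le, h4⟩⟩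
  obtain ⟨x, hx, hacc⟩ := hinf.exists_accPt_of_subset_isCompact hcomp hsub
  have hfreq : ∃ᶠ z in 𝓝[≠] x, riemannZeta z = 0 := by
    rw [accPt_iff_frequently_nhdsNE] at hacc
    exact hacc.mono fun z hz => hz.1
  by_cases hx1 : x = 1
  · subst hx1
    have h1 := riemannZeta_residue_one
    have h2 : ∀ᶠ z in 𝓝[≠] (1 : ℂ), (z - 1) * riemannZeta z ≠ 0 :=
      h1.eventually (isOpen_ne.mem_nhds one_ne_zero)
    obtain ⟨z, hz1, hz2⟩ := (hfreq.and_eventually h2).exists
    exact hz2 (by rw [hz1, mul_zero])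
  · have hz := AnalyticOnNhd.eqOn_zero_of_preconnected_of_frequently_eq_zero
      (f := riemannZeta) (U := {1}ᶜ) (fun s hs => zeta_an hs) preconn hx1 hfreq
    exact zeta_two_ne (hz (by simp : (2 : ℂ) ∈ ({1}ᶜ : Set ℂ)))

theorem real_ne {x : ℝ} (h0 : 0 < x) (h1 : x < 1) : riemannZeta (x : ℂ) ≠ 0 := by
  have hx1 : (x : ℂ) ≠ 1 := by
    intro h
    have : x = 1 := by exact_mod_cast h
    linarith
  have h := ZU.J_a1.zf_one (x : ℂ) (by simpa using h0) hx1
  have hi : (∫ u in Ioi (1 : ℝ), ((Int.fract u : ℝ) : ℂ) * (u : ℂ) ^ (-(x : ℂ) - 1)) =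
      ((∫ u in Ioi (1 : ℝ), Int.fract u * u ^ (-x - 1) : ℝ) : ℂ) := by
    rw [← integral_complex_ofReal]
    refine setIntegral_congr_fun measurableSet_Ioi fun u hu => ?_
    have hu0 : (0 : ℝ) ≤ u := by
      have : (1 : ℝ) < u := hu
      linarith
    push_cast
    rw [Complex.ofReal_cpow hu0]
    push_cast
    rfl
  have hnn : 0 ≤ ∫ u in Ioi (1 : ℝ), Int.fract u * u ^ (-x - 1) := by
    refine setIntegral_nonneg measurableSet_Ioi fun u hu => ?_
    have hu0 : (0 : ℝ) ≤ u := by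
      have : (1 : ℝ) < u := hu
      linarith
    exact mul_nonneg (Int.fract_nonneg u) (Real.rpow_nonneg hu0 _)
  intro h0'
  rw [hi, h0'] at h
  have h2 : (0 : ℝ) = 1 + 1 / (x - 1) - x * ∫ u in Ioi (1 : ℝ), Int.fract u * u ^ (-x - 1) := by
    exact_mod_cast h
  have h3 : 1 + 1 / (x - 1) < 0 := by
    have : x - 1 < 0 := by linarith
    have h4 : 1 + 1 / (x - 1) = x / (x - 1) := by
      have : x - 1 ≠ 0 := this.ne
      field_simp
      ring
    rw [h4]
    exact div_neg_of_pos_of_neg h0 this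
  have h5 : 0 ≤ x * ∫ u in Ioi (1 : ℝ), Int.fract u * u ^ (-x - 1) := mul_nonneg h0.le hnn
  linarith

theorem zeta_conj_zero {s : ℂ} (hs : s ≠ 1) (h : riemannZeta s = 0) :
    riemannZeta ((starRingEnd ℂ) s) = 0 := by
  have h1 := H370.DL.LFunction_conj (1 : DirichletCharacter ℂ 1) s hs
  simp only [inv_one, DirichletCharacter.LFunction_modOne_eq] at h1
  rw [h] at h1
  simpa using h1

end Pool.Agent.Y21.FW
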